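import Mathlib

set_option autoImplicit false
open Cardinal Set Function Filter Topology

namespace Pool.Agent.H.MP_434b1a_gt

def ar : Option (Option ℝ) → Type
  | none => Empty
  | some _ => ℕ

lemma card_W : #(WType ar) ≤ 𝔠 := by
  refine WType.cardinalMk_le_of_le' ?_
  refine (sum_le_sum _ (fun _ => 𝔠) fun a => ?_).trans
    (by simp [mk_real, add_one_eq aleph0_le_continuum])
  cases a with
  | none => simpa [ar] using one_le_aleph0.trans aleph0_le_continuum
  | some a => simp [ar]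

lemma card_conn (Y : Type) [TopologicalSpace Y] [T2Space Y] [FirstCountableTopology Y]
    [PreconnectedSpace Y] (h : ∀ y : Y, ∃ V ∈ 𝓝 y, #V ≤ 𝔠) : #Y ≤ 𝔠 := by
  cases isEmpty_or_nonempty Y with
  | inl _ => simp
  | inr hY =>
  have h1 : ∀ y : Y, ∃ f : ℝ → Y, range f ∈ 𝓝 y := by
    intro y
    obtain ⟨V, h1, h2⟩ := h y
    obtain ⟨e⟩ := (Cardinal.le_def V ℝ).1 (h2.trans mk_real.ge)
    refine ⟨extend e Subtype.val fun _ => y, mem_of_superset h1 fun v hv => ⟨e ⟨v, hv⟩, ?_⟩⟩
    exact e.injective.extend_apply _ _ _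
  choose f hf using h1
  let st : (Σ a : Option (Option ℝ), ar a → Y) → Y := fun p => match p with
    | ⟨none, _⟩ => hY.some
    | ⟨some none, g⟩ => limUnder atTop (show ℕ → Y from g)
    | ⟨some (some r), g⟩ => f (g (0 : ℕ)) r
  let ev : WType ar → Y := WType.elim Y st
  have hc : IsClopen (range ev) := by
    constructor
    · refine IsSeqClosed.isClosed fun s z hs hz => ?_
      choose t ht using hs
      refine ⟨WType.mk (some none) t, ?_⟩
      show limUnder atTop (fun k : ℕ => ev (t k)) = z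
      simp only [ht]
      exact hz.limUnder_eq
    · refine isOpen_iff_mem_nhds.2 ?_
      rintro _ ⟨t, rfl⟩
      refine mem_of_superset (hf _) ?_
      rintro _ ⟨r, rfl⟩
      exact ⟨WType.mk (some (some r)) fun _ => t, rfl⟩
  have := hc.eq_univ ⟨_, WType.mk none (fun e => Empty.elim e), rfl⟩
  rw [← mk_univ, ← this]
  exact mk_range_le.trans card_W

lemma card_reach {M : Type} (R : M → Set M) (κ : Cardinal) (hκ : ℵ₀ ≤ κ) (h : ∀ y, #(R y) ≤ κ)
    (x : M) : ∃ W : Set M, x ∈ W ∧ #W ≤ κ ∧ ∀ y ∈ W, R y ⊆ W := by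
  let A : ℕ → Set M := fun k => Nat.rec {x} (fun _ B => ⋃ y : B, R y) k
  refine ⟨⋃ k, A k, mem_iUnion.2 ⟨0, rfl⟩, ?_, fun y hy z hz => ?_⟩
  · have : ∀ k, #↥(A k) ≤ κ := by
      intro k
      induction k with
      | zero => exact (mk_singleton x).le.trans (one_le_aleph0.trans hκ)
      | succ k ih =>
        exact (mk_iUnion_le _).trans ((mul_le_mul' ih (ciSup_le' fun y => h _)).trans
          (mul_eq_self hκ).le)
    exact (mk_iUnion_le _).trans ((mul_le_mul' (mk_le_aleph0.trans hκ) (ciSup_le' this)).trans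
      (mul_eq_self hκ).le)
  · obtain ⟨k, hk⟩ := mem_iUnion.1 hy
    exact mem_iUnion.2 ⟨k + 1, mem_iUnion.2 ⟨⟨y, hk⟩, hz⟩⟩

lemma card_le {M : Type} [TopologicalSpace M] [PreconnectedSpace M] {n : ℕ}
    (hM : ∀ x : M, ∃ e : (Fin n → ℝ) → M, IsOpenEmbedding e ∧ x ∈ range e)
    (S : Set (Set M)) (h1 : ∀ U ∈ S, IsOpen U ∧ T2Space U) (h2 : ⋃₀ S = Set.univ)
    (h3 : 𝔠 ≤ #S) : #M ≤ #S := by
  have : FirstCountableTopology M := ⟨fun x => by
    obtain ⟨e, he, r, rfl⟩ := hM x
    rw [← he.map_nhds_eq]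
    infer_instance⟩
  have : LocallyConnectedSpace M := locallyConnectedSpace_iff_connected_subsets.2 fun x U hU => by
    obtain ⟨e, he, r, rfl⟩ := hM x
    obtain ⟨ε, hε, h⟩ := Metric.mem_nhds_iff.1 (he.continuous.continuousAt.preimage_mem_nhds hU)
    exact ⟨e '' Metric.ball r ε, he.isOpenMap.image_mem_nhds (Metric.ball_mem_nhds _ hε),
      (convex_ball r ε).isPreconnected.image _ he.continuous.continuousOn, image_subset_iff.2 h⟩
  have hc : ∀ U ∈ S, ∀ y, #(connectedComponentIn U y) ≤ 𝔠 := by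
    intro U hU y
    have := (h1 U hU).2
    have : T2Space (connectedComponentIn U y) := T2Space.of_injective_continuous
      (inclusion_injective (connectedComponentIn_subset U y)) (continuous_inclusion _)
    have : PreconnectedSpace (connectedComponentIn U y) :=
      isPreconnected_iff_preconnectedSpace.1 isPreconnected_connectedComponentIn
    refine card_conn _ fun z => ?_
    obtain ⟨e, he, hz⟩ := hM z
    refine ⟨Subtype.val ⁻¹' range e, continuous_subtype_val.continuousAt.preimage_mem_nhds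
      (he.isOpen_range.mem_nhds hz), (mk_preimage_of_injective _ _ Subtype.val_injective).trans
      (mk_range_le.trans ?_)⟩
    simpa [mk_real] using power_nat_le aleph0_le_continuum
  cases isEmpty_or_nonempty M with
  | inl _ => simp
  | inr hY =>
  have h0 : ℵ₀ ≤ #S := aleph0_le_continuum.trans h3
  obtain ⟨W, w1, w2, w3⟩ := card_reach (fun y => ⋃ U : S, connectedComponentIn U y) #S h0
    (fun y => (mk_iUnion_le _).trans ((mul_le_mul' le_rfl (ciSup_le' fun U =>
      (hc _ U.2 y).trans h3)).trans (mul_eq_self h0).le)) hY.some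
  have hU : ∀ y : M, ∃ U ∈ S, y ∈ connectedComponentIn U y ∧ IsOpen (connectedComponentIn U y) :=
    fun y => by
      obtain ⟨U, a, b⟩ := h2.ge (mem_univ y)
      exact ⟨U, a, mem_connectedComponentIn b, (h1 U a).1.connectedComponentIn⟩
  have hW : IsClopen W := by
    constructor
    · refine isClosed_of_closure_subset fun y hy => ?_
      obtain ⟨U, a, b, c⟩ := hU y
      obtain ⟨z, z1, z2⟩ := mem_closure_iff.1 hy _ c b
      exact w3 z z2 (mem_iUnion.2 ⟨⟨U, a⟩, connectedComponentIn_eq z1 ▸ b⟩)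
    · refine isOpen_iff_mem_nhds.2 fun y hy => ?_
      obtain ⟨U, a, b, c⟩ := hU y
      exact mem_of_superset (c.mem_nhds b) fun z hz => w3 y hy (mem_iUnion.2 ⟨⟨U, a⟩, hz⟩)
  rw [← mk_univ, ← hW.eq_univ ⟨_, w1⟩]
  exact w2

def NH {M : Type} [TopologicalSpace M] (x y : M) : Prop :=
  y ≠ x ∧ ¬ ∃ U V : Set M, IsOpen U ∧ IsOpen V ∧ x ∈ U ∧ y ∈ V ∧ Disjoint U V

lemma nwd_cover {M : Type} [TopologicalSpace M] {n : ℕ} (e : (Fin n → ℝ) → M)
    (he : IsOpenEmbedding e) (hN : ∀ x : M, ∃ y, NH x y)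
    (S : Set (Set M)) (h1 : ∀ U ∈ S, IsOpen U ∧ T2Space U) (h2 : ⋃₀ S = Set.univ) :
    ∃ T : Set (Set (Fin n → ℝ)), #T ≤ #S ∧ (∀ N ∈ T, IsNowhereDense N) ∧ ⋃₀ T = Set.univ := by
  refine ⟨(fun U => frontier (e ⁻¹' U)) '' S, mk_image_le, ?_, eq_univ_of_forall fun r => ?_⟩
  · rintro _ ⟨U, hU, rfl⟩
    refine isClosed_frontier.isNowhereDense_iff.2 ?_
    rw [← frontier_compl]
    exact interior_frontier ((h1 U hU).1.preimage he.continuous).isClosed_compl
  · obtain ⟨y, y1, y2⟩ := hN (e r)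
    obtain ⟨U, a, b⟩ := h2.ge (mem_univ y)
    refine ⟨_, ⟨U, a, rfl⟩, ?_⟩
    simp only
    rw [((h1 U a).1.preimage he.continuous).frontier_eq]
    refine ⟨he.isOpenMap.preimage_closure_subset_closure_preimage
      (mem_closure_iff.2 fun V c d => ?_), fun h => ?_⟩
    · by_contra hn
      exact y2 ⟨V, U, c, (h1 U a).1, d, b, disjoint_iff_inter_eq_empty.2
        (not_nonempty_iff_eq_empty.1 hn)⟩
    · have := (h1 U a).2
      exact y2 (separated_by_isOpenEmbedding (h1 U a).1.isOpenEmbedding_subtypeVal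
        (x := ⟨e r, h⟩) (y := ⟨y, b⟩) fun h => y1 (congrArg Subtype.val h).symm)

end Pool.Agent.H.MP_434b1a_gt
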