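import Pool.Agent.H.MP_434b1a_gt.A

set_option autoImplicit false
open Cardinal Set Function Filter Topology

namespace Pool.Agent.H.MP_434b1a_gt

section glue
variable {M X I : Type} [TopologicalSpace X] (φ : I → X → M)

@[reducible] def gl : TopologicalSpace M := ⨆ i, TopologicalSpace.coinduced (φ i) inferInstance

lemma gl_emb (h1 : ∀ i, Injective (φ i))
    (h2 : ∀ i j V, IsOpen V → IsOpen (φ j ⁻¹' (φ i '' V))) (i : I) :
    @IsOpenEmbedding _ _ _ (gl φ) (φ i) := by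
  let := gl φ
  refine IsOpenEmbedding.of_continuous_injective_isOpenMap ?_ (h1 i) fun V hV => ?_
  · exact continuous_iSup_rng (i := i) continuous_coinduced_rng
  · exact isOpen_iSup_iff.2 fun j => h2 i j V hV

lemma conn [TopologicalSpace M] [PreconnectedSpace X] (h1 : ∀ i, Continuous (φ i))
    (h2 : ∀ p, ∃ i, p ∈ range (φ i)) (h3 : ∀ i j, (range (φ i) ∩ range (φ j)).Nonempty) :
    PreconnectedSpace M := by
  refine ⟨isPreconnected_of_forall_pair fun x _ y _ => ?_⟩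
  obtain ⟨i, hi⟩ := h2 x
  obtain ⟨j, hj⟩ := h2 y
  exact ⟨_, subset_univ _, Or.inl hi, Or.inr hj, IsPreconnected.union' (h3 i j)
    (isPreconnected_range (h1 i)) (isPreconnected_range (h1 j))⟩

end glue

def P : Type := {p : ℝ × ℝ × ℝ // 0 < p.2.2 → p.2.1 = 0}

noncomputable def ψ (a : ℝ) (z : ℝ × ℝ) : P :=
  ⟨(a + z.1 * max z.2 0, if 0 < z.2 then 0 else z.1, z.2), fun h => if_pos h⟩

noncomputable instance : TopologicalSpace P := gl ψ

lemma ψ_eq {a b : ℝ} {z w : ℝ × ℝ} : ψ a z = ψ b w ↔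
    z.2 = w.2 ∧ ((0 < w.2 ∧ a + z.1 * w.2 = b + w.1 * w.2) ∨ (w.2 ≤ 0 ∧ a = b ∧ z.1 = w.1)) := by
  obtain ⟨x, y⟩ := z
  obtain ⟨x', y'⟩ := w
  refine Subtype.ext_iff.trans ?_
  simp only [ψ, Prod.mk.injEq]
  constructor
  · rintro ⟨h1, h2, rfl⟩
    rcases lt_or_ge 0 y with h | h
    · exact ⟨rfl, Or.inl ⟨h, by simpa [h.le] using h1⟩⟩
    · exact ⟨rfl, Or.inr ⟨h, by simpa [h] using h1, by simpa [h.not_gt] using h2⟩⟩
  · rintro ⟨rfl, ⟨h, h1⟩ | ⟨h, rfl, rfl⟩⟩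
    · simp [h, h.le, h1]
    · simp

lemma ψ_inj (a : ℝ) : Injective (ψ a) := by
  intro z w h
  obtain ⟨h1, ⟨h2, h3⟩ | ⟨-, -, h3⟩⟩ := ψ_eq.1 h
  · exact Prod.ext (mul_right_cancel₀ h2.ne' (add_left_cancel h3)) h1
  · exact Prod.ext h3 h1

lemma ψ_emb (a : ℝ) : IsOpenEmbedding (ψ a) := by
  refine gl_emb ψ ψ_inj (fun a b V hV => ?_) a
  rcases eq_or_ne a b with rfl | hab
  · rwa [preimage_image_eq _ (ψ_inj a)]
  have : ψ b ⁻¹' (ψ a '' V) = {w : ℝ × ℝ | 0 < w.2} ∩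
      (fun w : ℝ × ℝ => ((b - a) / w.2 + w.1, w.2)) ⁻¹' V := by
    ext w
    constructor
    · rintro ⟨z, hz, h⟩
      obtain ⟨h1, ⟨h2, h3⟩ | ⟨-, h3, -⟩⟩ := ψ_eq.1 h
      · refine ⟨h2, ?_⟩
        have : ((b - a) / w.2 + w.1, w.2) = z := Prod.ext (by
          have := h2.ne'
          field_simp
          linarith) h1.symm
        rwa [mem_preimage, this]
      · exact absurd h3 hab
    · rintro ⟨h1, h2⟩
      have h1 : 0 < w.2 := h1
      refine ⟨_, h2, ψ_eq.2 ⟨rfl, Or.inl ⟨h1, ?_⟩⟩⟩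
      have := h1.ne'
      field_simp
      ring
  rw [this]
  refine ContinuousOn.isOpen_inter_preimage ?_ (isOpen_lt continuous_const continuous_snd) hV
  exact ((continuousOn_const.div continuousOn_snd fun w (h : 0 < w.2) => h.ne').add
    continuousOn_fst).prodMk continuousOn_snd

lemma ψ_cov (p : P) : ψ p.1.1 p.1.2 = p := by
  obtain ⟨⟨a, x, y⟩, h⟩ := p
  refine Subtype.ext ?_
  rcases lt_or_ge 0 y with h' | h'
  · have : x = 0 := h h'
    simp [ψ, this]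
  · simp [ψ, h', h'.not_gt]

instance : T2Space P := ⟨fun p q hpq => by
  by_cases h : p.1.1 = q.1.1
  · have := separated_by_isOpenEmbedding (ψ_emb p.1.1) (x := p.1.2) (y := q.1.2)
      fun e => hpq (Subtype.ext (Prod.ext h e))
    rwa [ψ_cov, h, ψ_cov] at this
  · refine separated_by_continuous (f := fun p : P => p.1.1) ?_ h
    refine continuous_iSup_dom.2 fun a => continuous_coinduced_dom.2 ?_
    show Continuous fun z : ℝ × ℝ => a + z.1 * max z.2 0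
    fun_prop⟩

instance : PreconnectedSpace P :=
  conn ψ (fun a => (ψ_emb a).continuous) (fun p => ⟨_, _, ψ_cov p⟩) fun a b =>
    ⟨ψ a (-a, 1), ⟨_, rfl⟩, (-b, 1), ψ_eq.2 (by simp)⟩

section L
variable {X K : Type} (N : K → Set X)

def L : Type := {p : X × Finset K // ∀ α ∈ p.2, p.1 ∈ N α}

open Classical in
noncomputable def φ (σ : Finset K) (x : X) : L N :=
  ⟨(x, σ.filter fun α => x ∈ N α), fun _ h => (Finset.mem_filter.1 h).2⟩

lemma φ_eq {σ τ : Finset K} {x y : X} : φ N σ x = φ N τ y ↔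
    x = y ∧ ∀ α, y ∈ N α → (α ∈ σ ↔ α ∈ τ) := by
  refine Subtype.ext_iff.trans ?_
  simp only [φ, Prod.mk.injEq, Finset.ext_iff, Finset.mem_filter]
  constructor
  · rintro ⟨rfl, h⟩
    exact ⟨rfl, fun α hα => by simpa [hα] using h α⟩
  · rintro ⟨rfl, h⟩
    exact ⟨rfl, fun α => and_congr_left (h α)⟩

lemma φ_cov (p : L N) : φ N p.1.2 p.1.1 = p :=
  Subtype.ext (Prod.ext rfl (by
    classical
    simp only [φ]
    convert Finset.filter_true_of_mem p.2))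

variable [TopologicalSpace X]

noncomputable instance : TopologicalSpace (L N) := gl (φ N)

omit [TopologicalSpace X] in
lemma agree (σ τ : Finset K) : {y | ∀ α, y ∈ N α → (α ∈ σ ↔ α ∈ τ)} =
    ⋂ α ∈ {α | ¬ (α ∈ σ ↔ α ∈ τ)}, (N α)ᶜ := by
  ext y
  simp only [mem_ofPred_eq, mem_iInter, mem_compl_iff]
  exact forall_congr' fun α => by tauto

lemma fin_diff (σ τ : Finset K) : {α | ¬ (α ∈ σ ↔ α ∈ τ)}.Finite :=
  (σ.finite_toSet.union τ.finite_toSet).subset fun α h => by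
    simp only [mem_ofPred_eq, mem_union, Finset.mem_coe] at h ⊢
    tauto

lemma φ_emb (hN : ∀ α, IsClosed (N α)) (σ : Finset K) : IsOpenEmbedding (φ N σ) := by
  refine gl_emb (φ N) (fun σ x y h => ((φ_eq N).1 h).1) (fun σ τ V hV => ?_) σ
  have : φ N τ ⁻¹' (φ N σ '' V) = V ∩ {y | ∀ α, y ∈ N α → (α ∈ σ ↔ α ∈ τ)} := by
    ext y
    constructor
    · rintro ⟨x, hx, h⟩
      obtain ⟨rfl, h⟩ := (φ_eq N).1 h
      exact ⟨hx, h⟩
    · exact fun h => ⟨y, h.1, (φ_eq N).2 ⟨rfl, h.2⟩⟩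
  rw [this, agree]
  exact hV.inter ((fin_diff σ τ).isOpen_biInter fun α _ => (hN α).isOpen_compl)

lemma φ_dense [BaireSpace X] (hN : ∀ α, IsClosed (N α)) (hD : ∀ α, Dense (N α)ᶜ)
    (σ τ : Finset K) : Dense {y | φ N σ y = φ N τ y} := by
  have : {y | φ N σ y = φ N τ y} = {y | ∀ α, y ∈ N α → (α ∈ σ ↔ α ∈ τ)} := by
    ext y
    simp [φ_eq]
  rw [this, agree]
  exact dense_biInter_of_isOpen (fun α _ => (hN α).isOpen_compl) (fin_diff σ τ).countable
    fun α _ => hD α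

end L

theorem exists_ex (n : ℕ) (T : Set (Set (Fin n → ℝ))) (h1 : #T < 𝔠)
    (h2 : ∀ N ∈ T, IsNowhereDense N) (h3 : ⋃₀ T = Set.univ) :
    ∃ (M : Type) (_ : TopologicalSpace M), ConnectedSpace M ∧
      (∀ x : M, ∃ e : (Fin (n + 2) → ℝ) → M, IsOpenEmbedding e ∧ x ∈ range e) ∧
      (∀ x : M, ∃ y, NH x y) ∧
      (∃ S : Set (Set M), (∀ U ∈ S, IsOpen U ∧ T2Space U) ∧ ⋃₀ S = Set.univ ∧ #S < 𝔠) ∧
      ∀ S : Set (Set M), (∀ U ∈ S, TopologicalSpace.SeparableSpace U) → ⋃₀ S = Set.univ →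
        𝔠 ≤ #S := by
  classical
  let N : T → Set (Fin n → ℝ) := fun α => closure α.1
  have hN : ∀ α, IsClosed (N α) := fun _ => isClosed_closure
  have hD : ∀ α, Dense (N α)ᶜ := fun α =>
    (isClosed_isNowhereDense_iff_compl.1 ⟨hN α, (h2 _ α.2).closure⟩).2
  have hc : PreconnectedSpace (L N) := conn (φ N) (fun σ => (φ_emb N hN σ).continuous)
    (fun p => ⟨_, _, φ_cov N p⟩) fun σ τ => by
      obtain ⟨y, hy⟩ := (φ_dense N hN hD σ τ).nonempty
      exact ⟨φ N σ y, ⟨_, rfl⟩, y, hy.symm⟩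
  have : ConnectedSpace (L N) := { toNonempty := ⟨φ N ∅ 0⟩ }
  have : ConnectedSpace P := { toNonempty := ⟨ψ 0 0⟩ }
  let h : (Fin (n + 2) → ℝ) ≃L[ℝ] (Fin n → ℝ) × ℝ × ℝ :=
    ContinuousLinearEquiv.ofFinrankEq (by simp)
  refine ⟨L N × P, inferInstance, inferInstance, fun x => ?_, fun x => ?_, ?_, fun S s1 s2 => ?_⟩
  · refine ⟨Prod.map (φ N x.1.1.2) (ψ x.2.1.1) ∘ h, ((φ_emb N hN _).prodMap (ψ_emb _)).comp
      h.toHomeomorph.isOpenEmbedding, h.symm (x.1.1.1, x.2.1.2), ?_⟩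
    simp [φ_cov, ψ_cov]
  · obtain ⟨p, q⟩ := x
    obtain ⟨A, a1, a2⟩ := h3.ge (mem_univ p.1.1)
    let σ := symmDiff p.1.2 {⟨A, a1⟩}
    refine ⟨(φ N σ p.1.1, q), fun e => ?_, ?_⟩
    · have := ((φ_eq N).1 ((Prod.ext_iff.1 e).1.trans (φ_cov N p).symm)).2 ⟨A, a1⟩
        (subset_closure a2)
      simp [σ, Finset.mem_symmDiff] at this
    · rintro ⟨U, V, b1, b2, b3, b4, b5⟩
      have c : ∀ τ, Continuous fun y => (φ N τ y, q) := fun τ =>
        (φ_emb N hN τ).continuous.prodMk continuous_const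
      obtain ⟨y, ⟨y1, y2⟩, y3⟩ := (φ_dense N hN hD σ p.1.2).inter_open_nonempty _
        ((b1.preimage (c p.1.2)).inter (b2.preimage (c σ)))
        ⟨p.1.1, by rw [mem_preimage, φ_cov]; exact b3, b4⟩
      rw [mem_preimage, y3] at y2
      exact disjoint_left.1 b5 y1 y2
  · refine ⟨range fun σ => range (Prod.map (φ N σ) id), ?_, eq_univ_of_forall fun x =>
      ⟨_, ⟨x.1.1.2, rfl⟩, (x.1.1.1, x.2), by simp [φ_cov]⟩, mk_range_le.trans_lt ?_⟩
    · rintro _ ⟨σ, rfl⟩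
      have e := (φ_emb N hN σ).prodMap (IsOpenEmbedding.id (X := P))
      exact ⟨e.isOpen_range, e.isEmbedding.toHomeomorph.t2Space⟩
    · exact (mk_le_of_surjective (f := List.toFinset) List.toFinset_surjective).trans_lt
        ((mk_list_le_max _).trans_lt (max_lt aleph0_lt_continuum h1))
  · by_contra! hs
    let O : ℝ → Set (L N × P) := fun a => Prod.snd ⁻¹' (ψ a '' {z | z.2 < 0})
    have o1 : ∀ a, IsOpen (O a) := fun a => ((ψ_emb a).isOpenMap _
      (isOpen_lt continuous_snd continuous_const)).preimage continuous_snd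
    have o2 : ∀ U : S, {a | (Subtype.val ⁻¹' O a : Set U.1).Nonempty}.Countable := by
      intro U
      have := s1 _ U.2
      refine Set.PairwiseDisjoint.countable_of_isOpen (s := fun a => (Subtype.val ⁻¹' O a : Set U.1))
        (fun a _ b _ hab => disjoint_left.2 ?_)
        (fun a _ => (o1 a).preimage continuous_subtype_val) fun a h => h
      rintro x ⟨z, z1, z2⟩ ⟨w, w1, w2⟩
      obtain ⟨-, ⟨h, -⟩ | ⟨-, h, -⟩⟩ := ψ_eq.1 (z2.trans w2.symm)
      · exact h.not_gt w1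
      · exact hab h
    have o3 : (Set.univ : Set ℝ) ⊆ ⋃ U : S, {a | (Subtype.val ⁻¹' O a : Set U.1).Nonempty} := by
      intro a _
      obtain ⟨U, u1, u2⟩ := s2.ge (mem_univ (φ N ∅ 0, ψ a (0, -1)))
      exact mem_iUnion.2 ⟨⟨U, u1⟩, ⟨_, u2⟩, (0, -1), by simp, rfl⟩
    have := (mk_le_mk_of_subset o3).trans (mk_iUnion_le _)
    rw [mk_univ, mk_real] at this
    exact this.not_gt (mul_lt_of_lt aleph0_le_continuum hs
      ((ciSup_le' fun U => (o2 U).le_aleph0).trans_lt aleph0_lt_continuum))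

end Pool.Agent.H.MP_434b1a_gt
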